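import Mathlib
import Pool.Agent.H.MP_fc6768_gt.B

set_option autoImplicit false

namespace Pool.Agent.Results.MP_fc6768_gt.Yes

open Set Cardinal TopologicalSpace Pool.Agent.H.MP_9c4169_gt Pool.Agent.H.MP_fc6768_gt

/-- every space of size `< κ` is productively `S1(Gamma, Omega)` for metric spaces -/
def LePr (κ : Cardinal.{0}) : Prop :=
  ∀ (Z : Type) [TopologicalSpace Z] [T35Space Z] [Infinite Z], #Z < κ →
    ∀ (W : Type) [TopologicalSpace W] [MetrizableSpace W] [Infinite W],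
      S1 (Ga (Op W)) (Om (Op W)) → S1 (Ga (Op (Z × W))) (Om (Op (Z × W)))

theorem result (κ : Cardinal.{0}) (hκ : κ.IsRegular) (hp : LePr κ) (X : Set (ℕ → Bool))
    (hX : FU1 κ X) (Y : Type) [TopologicalSpace Y] [T35Space Y] [Infinite Y]
    (hY : S1 (Om (Op Y)) (Ga (Op Y))) (h : MetrizableSpace Y ∨ κ ≤ max covM gw) :
    S1 (Ga (Op (↥(X ∪ Fn) × Y))) (Om (Op (↥(X ∪ Fn) × Y))) := by
  have h1 : GG Y := gg_of fun 𝒰 hU => by
    obtain ⟨U, u1, u2⟩ := hY (fun _ => 𝒰) fun _ => hU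
    exact ⟨_, range_subset_iff.2 u1, u2⟩
  refine main' hκ (fu12 hX) h1 (h.symm.imp_right fun hm S _ s2 s3 => ?_)
  have := s3.to_subtype
  have := hm
  exact hp S s2 Y (hY.mono ga_om ga_om)

end Pool.Agent.Results.MP_fc6768_gt.Yes
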